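import Mathlib

/-!
# MP_2aafb6_co: the shift identity `N (b + k, c + 2 k, k) = N (b, c, k) + k`
-/

set_option autoImplicit false

namespace Pool.Agent.Results.MP_2aafb6_co.Shift

open Finset

/-- The sequence `a 0, …, a n` is admissible for `b, c`. -/
def Adm (b c n : ℕ) (a : ℕ → ℤ) : Prop :=
  a 0 = 0 ∧ (∀ i, i < n → a i < a (i + 1)) ∧ ∀ i, i + b ≤ n → a (i + b) ≤ a i + c

/-- The sequence `a 0, …, a n` hits `k`. -/
def Hits (k n : ℕ) (a : ℕ → ℤ) : Prop := ∃ i j, i < j ∧ j ≤ n ∧ a j - a i = k

/-- `N b c k` is the least positive `n` such that every admissible sequence `a 0, …, a n` hits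
`k`, and `⊤` if there is no such `n`. -/
noncomputable def N (b c k : ℕ) : ℕ∞ :=
  sInf ((fun n : ℕ => (n : ℕ∞)) '' {n : ℕ | 0 < n ∧ ∀ a : ℕ → ℤ, Adm b c n a → Hits k n a})

/-- there is an admissible sequence not hitting `k` -/
def Bad (b c k n : ℕ) : Prop := ∃ a : ℕ → ℤ, Adm b c n a ∧ ¬ Hits k n a

lemma Bad.mono {b c k n m : ℕ} (h : Bad b c k n) (hm : m ≤ n) : Bad b c k m := by
  obtain ⟨a, ⟨h1, h2, h3⟩, h4⟩ := h
  refine ⟨a, ⟨h1, fun i hi => h2 i (by omega), fun i hi => h3 i (by omega)⟩, ?_⟩
  rintro ⟨i, j, hij, hj, he⟩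
  exact h4 ⟨i, j, hij, by omega, he⟩

lemma Bad_zero {b c k : ℕ} (hb : 0 < b) : Bad b c k 0 := by
  refine ⟨fun _ => 0, ⟨rfl, fun i hi => by omega, fun i hi => by omega⟩, ?_⟩
  rintro ⟨i, j, hij, hj, _⟩
  omega

/-- strict monotonicity with gaps -/
lemma gap {n : ℕ} {a : ℕ → ℤ} (h : ∀ i, i < n → a i < a (i + 1)) (i j : ℕ) (hij : i ≤ j)
    (hj : j ≤ n) : a i + (j - i : ℤ) ≤ a j := by
  induction j, hij using Nat.le_induction with
  | base => simp
  | succ j hij ih =>
    have h1 := ih (by omega)
    have h2 := h j (by omega)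
    push_cast
    push_cast at h1
    omega

lemma lt_of_idx {n : ℕ} {a : ℕ → ℤ} (h : ∀ i, i < n → a i < a (i + 1)) (i j : ℕ) (hij : i < j)
    (hj : j ≤ n) : a i < a j := by
  have := gap h i j hij.le hj
  omega

/-- counting elements and shifted elements inside an interval -/
lemma count {k n : ℕ} {a : ℕ → ℤ} (h : ∀ i, i < n → a i < a (i + 1)) (hk : ¬ Hits k n a)
    (hk0 : 0 < k) (i1 i2 j1 j2 : ℕ) (hi : i1 ≤ i2) (hj : j1 ≤ j2) (hi2 : i2 ≤ n + 1)
    (hj2 : j2 ≤ n + 1) (u v : ℤ) (huv : u ≤ v)
    (h1 : ∀ i, i1 ≤ i → i < i2 → u ≤ a i ∧ a i < v)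
    (h2 : ∀ j, j1 ≤ j → j < j2 → u ≤ k + a j ∧ k + a j < v) :
    ((i2 - i1 : ℤ)) + (j2 - j1) ≤ v - u := by
  have inj : ∀ x y, x ≤ n → y ≤ n → a x = a y → x = y := by
    intro x y hx hy he
    rcases lt_trichotomy x y with hh | hh | hh
    · have := lt_of_idx h x y hh hy; omega
    · exact hh
    · have := lt_of_idx h y x hh hx; omega
  have hsub : (Finset.Ico i1 i2).image a ∪ (Finset.Ico j1 j2).image (fun j => k + a j) ⊆
      Finset.Ico u v := by
    intro z hz
    rw [mem_union, mem_image, mem_image] at hz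
    rw [Finset.mem_Ico]
    rcases hz with ⟨i, hi', rfl⟩ | ⟨j, hj', rfl⟩
    · rw [Finset.mem_Ico] at hi'; exact h1 i hi'.1 hi'.2
    · rw [Finset.mem_Ico] at hj'; exact h2 j hj'.1 hj'.2
  have hdisj : Disjoint ((Finset.Ico i1 i2).image a)
      ((Finset.Ico j1 j2).image (fun j => k + a j)) := by
    rw [Finset.disjoint_left]
    intro z hz hz'
    rw [mem_image] at hz hz'
    obtain ⟨i, hi', rfl⟩ := hz
    obtain ⟨j, hj', he⟩ := hz'
    rw [Finset.mem_Ico] at hi' hj'
    apply hk
    refine ⟨j, i, ?_, by omega, by omega⟩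
    by_contra hcon
    rcases Nat.eq_or_lt_of_le (not_lt.mp hcon) with hh | hh
    · rw [hh] at he; omega
    · have := lt_of_idx h i j hh (by omega); omega
  have hc := card_le_card hsub
  rw [card_union_of_disjoint hdisj, card_image_of_injOn, card_image_of_injOn, Nat.card_Ico,
    Nat.card_Ico, Int.card_Ico] at hc
  · zify at hc
    rw [Int.toNat_of_nonneg (by omega)] at hc
    push_cast [Nat.cast_sub hi, Nat.cast_sub hj] at hc
    exact hc
  · intro x hx y hy he
    rw [Finset.mem_coe, Finset.mem_Ico] at hx hy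
    simp only at he
    exact inj x y (by omega) (by omega) (by omega)
  · intro x hx y hy he
    rw [Finset.mem_coe, Finset.mem_Ico] at hx hy
    exact inj x y (by omega) (by omega) he

/-- a sequence that does not hit `k` has `a (j + k) ≥ a j + 2 k` -/
lemma spread {k n : ℕ} {a : ℕ → ℤ} (h : ∀ i, i < n → a i < a (i + 1)) (hk : ¬ Hits k n a)
    (hk0 : 0 < k) (j : ℕ) (hj : j + k ≤ n) : a j + 2 * k ≤ a (j + k) := by
  classical
  by_contra hcon
  rw [not_le] at hcon
  -- first index with a ≥ a j + k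
  have hex : ∃ t, j ≤ t ∧ a j + k ≤ a t := ⟨j + k, by omega, by
    have := gap h j (j + k) (by omega) hj
    push_cast at this; omega⟩
  set t := Nat.find hex with ht
  obtain ⟨t1, t2⟩ := Nat.find_spec hex
  rw [← ht] at t1 t2
  have t3 : t ≤ j + k := Nat.find_min' hex ⟨by omega, by
    have := gap h j (j + k) (by omega) hj
    push_cast at this; omega⟩
  have t4 : ∀ i, j ≤ i → i < t → a i < a j + k := by
    intro i hi hit
    by_contra hc
    exact Nat.find_min hex hit ⟨hi, not_lt.mp hc⟩
  have := count h hk hk0 t (j + k + 1) j t (by omega) t1 (by omega) (by omega) (a j + k)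
    (a j + 2 * k) (by omega) (by
      intro i hi hi'
      refine ⟨?_, ?_⟩
      · have := gap h t i hi (by omega); omega
      · have := gap h i (j + k) (by omega) hj; omega) (by
      intro i hi hi'
      refine ⟨?_, ?_⟩
      · have := gap h j i hi (by omega); omega
      · have := t4 i hi hi'; omega)
  push_cast at this
  omega

/-- shortening -/
lemma shorten {b c k n : ℕ} (hk0 : 0 < k) (h : Bad (b + k) (c + 2 * k) k (n + k)) :
    Bad b c k n := by
  obtain ⟨a, ⟨h1, h2, h3⟩, h4⟩ := h
  refine ⟨a, ⟨h1, fun i hi => h2 i (by omega), ?_⟩, ?_⟩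
  · intro i hi
    have e1 := h3 i (by omega)
    have e2 := spread h2 h4 hk0 (i + b) (by omega)
    rw [show i + (b + k) = i + b + k by omega] at e1
    push_cast at e1
    omega
  · rintro ⟨i, j, hij, hj, he⟩
    exact h4 ⟨i, j, hij, by omega, he⟩

/-- finiteness -/
lemma not_bad {b c k : ℕ} (hb : 0 < b) (hk0 : 0 < k) (hc : c < 2 * b) : ¬ Bad b c k (b + k - 1) := by
  rintro ⟨a, ⟨h1, h2, h3⟩, h4⟩
  have e1 : ∑ j ∈ range (b + k), a j = ∑ j ∈ range b, a j + ∑ j ∈ range k, a (b + j) :=
    Finset.sum_range_add a b k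
  have e2 : ∑ j ∈ range (k + b), a j = ∑ j ∈ range k, a j + ∑ j ∈ range b, a (k + j) :=
    Finset.sum_range_add a k b
  have e3 : ∑ j ∈ range k, a (b + j) ≤ ∑ j ∈ range k, (a j + c) := by
    apply Finset.sum_le_sum
    intro j hj
    rw [mem_range] at hj
    have := h3 j (by omega)
    rw [add_comm b j]; exact this
  have e4 : ∑ j ∈ range b, (a j + 2 * k) ≤ ∑ j ∈ range b, a (k + j) := by
    apply Finset.sum_le_sum
    intro j hj
    rw [mem_range] at hj
    have := spread h2 h4 hk0 j (by omega)
    rw [add_comm k j]; exact this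
  rw [Finset.sum_add_distrib] at e3 e4
  simp only [sum_const, card_range, nsmul_eq_mul] at e3 e4
  rw [add_comm k b] at e2
  have e5 : (b : ℤ) * (2 * k) ≤ k * c := by linarith
  have hc' : (c : ℤ) < 2 * b := by exact_mod_cast hc
  have hk' : (0 : ℤ) < k := by exact_mod_cast hk0
  nlinarith

/-- windows of at most `b` gaps -/
lemma window {b c n : ℕ} {a : ℕ → ℤ} (h : Adm b c n a) (hbn : b ≤ n) (i j : ℕ)
    (hij : i ≤ j) (hj : j ≤ n) (hb : j - i ≤ b) : a j - a i ≤ (j - i : ℤ) + (c - b) := by
  obtain ⟨h1, h2, h3⟩ := h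
  set i0 := min i (n - b) with hi0
  have e1 := h3 i0 (by omega)
  have e2 := gap h2 i0 i (by omega) (by omega)
  have e3 := gap h2 j (i0 + b) (by omega) (by omega)
  push_cast at e3
  omega

/-- large `k` -/
lemma large {b c k : ℕ} (hb : 0 < b) (hbc : b ≤ c) (hc : c < 2 * b) (hbk : b ≤ k)
    (hk : 2 * (c - b) ≤ k) : ¬ Bad b c k k := by
  classical
  rintro ⟨a, hA, h4⟩
  have hA' := hA
  obtain ⟨h1, h2, h3⟩ := hA'
  have hk0 : 0 < k := by omega
  have hspread := spread h2 h4 hk0 0 (by omega)
  rw [zero_add, h1] at hspread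
  obtain ⟨d, hd⟩ : ∃ d, c = b + d := ⟨c - b, by omega⟩
  have hdb : d < b := by omega
  have hdk : 2 * d ≤ k := by omega
  have hex : ∃ p, (k : ℤ) ≤ a p := ⟨k, by omega⟩
  set p := Nat.find hex with hp
  have p1 : (k : ℤ) ≤ a p := Nat.find_spec hex
  have p2 : p ≤ k := Nat.find_min' hex (by omega)
  have p3 : ∀ i, i < p → a i < k := by
    intro i hi
    exact not_le.mp (Nat.find_min hex hi)
  have p0 : 0 < p := by
    rcases Nat.eq_zero_or_pos p with h | h
    · rw [h, h1] at p1; omega
    · exact h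
  have p4 : (k : ℤ) < a p := by
    rcases lt_or_eq_of_le p1 with h | h
    · exact h
    · exfalso
      apply h4
      exact ⟨0, p, p0, p2, by rw [h1, ← h]; ring⟩
  -- p ≥ d + 1
  have hpd : d + 1 ≤ p := by
    by_contra hcon
    have := window hA hbk 0 p (by omega) p2 (by omega)
    rw [h1] at this
    push_cast at this
    omega
  -- the index j
  obtain ⟨j, hj⟩ : ∃ j, j = min (p + d) k := ⟨_, rfl⟩
  have hw := window hA hbk (p - 1) j (by omega) (by omega) (by omega)
  have had : a d < k := p3 d (by omega)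
  have hcov : (k : ℤ) + a d < a j := by
    rcases Nat.lt_or_ge (p + d) k with hlt | hge
    · have hj' : j = p + d := by omega
      by_contra hcon
      rw [not_lt] at hcon
      have hcnt := count h2 h4 hk0 p (j + 1) 1 (d + 1) (by omega) (by omega) (by omega) (by omega)
        (k + 1) (k + a d + 1) (by
          have := gap h2 0 d (by omega) (by omega)
          rw [h1] at this; push_cast at this; omega) (by
          intro i hi hi'
          refine ⟨?_, ?_⟩
          · have := gap h2 p i hi (by omega); omega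
          · have := gap h2 i j (by omega) (by omega); omega) (by
          intro i hi hi'
          refine ⟨?_, ?_⟩
          · have := gap h2 0 i (by omega) (by omega)
            rw [h1] at this; push_cast at this; omega
          · have := gap h2 i d (by omega) (by omega); omega)
      have hwd := window hA hbk 0 d (by omega) (by omega) (by omega)
      rw [h1] at hwd
      push_cast at hcnt hwd
      omega
    · have hj' : j = k := by omega
      rw [hj']; omega
  have hcnt := count h2 h4 hk0 (p - 1) j 0 (d + 1) (by omega) (by omega) (by omega) (by omega)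
    (a (p - 1)) (a j) (by have := gap h2 (p - 1) j (by omega) (by omega); omega) (by
      intro i hi hi'
      refine ⟨?_, ?_⟩
      · have := gap h2 (p - 1) i hi (by omega); omega
      · exact lt_of_idx h2 i j hi' (by omega)) (by
      intro i hi hi'
      have e1 := p3 (p - 1) (by omega)
      have e2 := gap h2 0 i (by omega) (by omega)
      rw [h1] at e2
      push_cast at e2
      have e3 := gap h2 i d (by omega) (by omega)
      refine ⟨by omega, by omega⟩)
  push_cast at hcnt
  omega

/-- number of elements at most `t` -/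
def F (A : Finset ℤ) (t : ℤ) : ℕ := (A.filter (fun z => z ≤ t)).card

/-- the set form -/
def SBad (b c k n : ℕ) (A : Finset ℤ) : Prop :=
  A.card = n + 1 ∧ 0 ∈ A ∧ (∀ x ∈ A, 0 ≤ x) ∧ (∀ x ∈ A, x + k ∉ A) ∧
    ∀ x ∈ A, b + F A x ≤ A.card → b + F A x ≤ F A (x + c)

lemma F_image {n : ℕ} {a : ℕ → ℤ} (h : ∀ i, i < n → a i < a (i + 1)) (j : ℕ) (hj : j ≤ n)
    (t : ℤ) : j + 1 ≤ F ((range (n + 1)).image a) t ↔ a j ≤ t := by
  have inj : ∀ x y, x ≤ n → y ≤ n → a x = a y → x = y := by
    intro x y hx hy he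
    rcases lt_trichotomy x y with hh | hh | hh
    · have := lt_of_idx h x y hh hy; omega
    · exact hh
    · have := lt_of_idx h y x hh hx; omega
  constructor
  · intro h1
    by_contra hcon
    rw [not_le] at hcon
    have : ((range (n + 1)).image a).filter (fun z => z ≤ t) ⊆ (range j).image a := by
      intro z hz
      rw [mem_filter, mem_image] at hz
      obtain ⟨⟨i, hi, rfl⟩, hz2⟩ := hz
      rw [mem_range] at hi
      rw [mem_image]
      refine ⟨i, ?_, rfl⟩
      rw [mem_range]
      by_contra hc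
      have := gap h j i (by omega) (by omega)
      omega
    have h2 := card_le_card this
    have h3 := (card_image_le (s := range j) (f := a))
    rw [card_range] at h3
    unfold F at h1
    omega
  · intro h1
    have : (range (j + 1)).image a ⊆ ((range (n + 1)).image a).filter (fun z => z ≤ t) := by
      intro z hz
      rw [mem_image] at hz
      obtain ⟨i, hi, rfl⟩ := hz
      rw [mem_range] at hi
      rw [mem_filter, mem_image]
      refine ⟨⟨i, by rw [mem_range]; omega, rfl⟩, ?_⟩
      have := gap h i j (by omega) hj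
      omega
    have h2 := card_le_card this
    rw [card_image_of_injOn, card_range] at h2
    · exact h2
    · intro x hx y hy he
      rw [Finset.mem_coe, mem_range] at hx hy
      exact inj x y (by omega) (by omega) he

lemma card_im {n : ℕ} {a : ℕ → ℤ} (h : ∀ i, i < n → a i < a (i + 1)) :
    ((range (n + 1)).image a).card = n + 1 := by
  rw [card_image_of_injOn, card_range]
  intro x hx y hy he
  rw [Finset.mem_coe, mem_range] at hx hy
  rcases lt_trichotomy x y with hh | hh | hh
  · have := lt_of_idx h x y hh (by omega); omega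
  · exact hh
  · have := lt_of_idx h y x hh (by omega); omega

lemma F_val {n : ℕ} {a : ℕ → ℤ} (h : ∀ i, i < n → a i < a (i + 1)) (j : ℕ) (hj : j ≤ n) :
    F ((range (n + 1)).image a) (a j) = j + 1 := by
  apply le_antisymm
  · by_contra hcon
    rw [not_le] at hcon
    rcases Nat.eq_or_lt_of_le hj with hh | hh
    · have h2 : F ((range (n + 1)).image a) (a j) ≤ ((range (n + 1)).image a).card :=
        card_filter_le _ _
      rw [card_im h] at h2
      omega
    · have := (F_image h (j + 1) hh (a j)).mp hcon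
      have := h j hh
      omega
  · exact (F_image h j hj (a j)).mpr le_rfl

lemma Bad_iff (b c k n : ℕ) (hk0 : 0 < k) :
    Bad b c k n ↔ ∃ A : Finset ℤ, SBad b c k n A := by
  constructor
  · rintro ⟨a, ⟨h1, h2, h3⟩, h4⟩
    refine ⟨(range (n + 1)).image a, card_im h2, ?_, ?_, ?_, ?_⟩
    · rw [mem_image]; exact ⟨0, by simp, h1⟩
    · intro x hx
      rw [mem_image] at hx
      obtain ⟨i, hi, rfl⟩ := hx
      rw [mem_range] at hi
      have := gap h2 0 i (by omega) (by omega)
      rw [h1] at this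
      push_cast at this
      omega
    · intro x hx hx'
      rw [mem_image] at hx hx'
      obtain ⟨i, hi, rfl⟩ := hx
      obtain ⟨j, hj, he⟩ := hx'
      rw [mem_range] at hi hj
      apply h4
      refine ⟨i, j, ?_, by omega, by omega⟩
      by_contra hcon
      have := gap h2 j i (by omega) (by omega)
      omega
    · intro x hx
      rw [mem_image] at hx
      obtain ⟨i, hi, rfl⟩ := hx
      rw [mem_range] at hi
      rw [F_val h2 i (by omega), card_im h2]
      intro hb
      have := (F_image h2 (i + b) (by omega) (a i + c)).mpr (h3 i (by omega))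
      omega
  · rintro ⟨A, h1, h2, h3, h4, h5⟩
    let e := A.orderEmbOfFin h1
    let a : ℕ → ℤ := fun i => if h : i < n + 1 then e ⟨i, h⟩ else 0
    have ha : ∀ i (h : i < n + 1), a i = e ⟨i, h⟩ := fun i h => dif_pos h
    have hmono : ∀ i, i < n → a i < a (i + 1) := by
      intro i hi
      rw [ha i (by omega), ha (i + 1) (by omega)]
      apply e.strictMono
      rw [Fin.lt_def]
      exact Nat.lt_succ_self i
    have him : (range (n + 1)).image a = A := by
      ext z
      rw [mem_image]
      constructor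
      · rintro ⟨i, hi, rfl⟩
        rw [mem_range] at hi
        rw [ha i hi]
        exact A.orderEmbOfFin_mem h1 _
      · intro hz
        have : z ∈ Set.range e := by
          rw [Finset.range_orderEmbOfFin]; exact hz
        obtain ⟨i, hi⟩ := this
        exact ⟨i, mem_range.mpr i.2, by rw [ha i i.2]; exact hi⟩
    have hmem : ∀ i, i < n + 1 → a i ∈ A := by
      intro i hi
      rw [← him]
      exact mem_image_of_mem a (mem_range.mpr hi)
    refine ⟨a, ⟨?_, hmono, ?_⟩, ?_⟩
    · have h6 : (0 : ℤ) ∈ (range (n + 1)).image a := by rw [him]; exact h2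
      rw [mem_image] at h6
      obtain ⟨i, hi, hi0⟩ := h6
      rw [mem_range] at hi
      have h7 := gap hmono 0 i (by omega) (by omega)
      have h8 := h3 _ (hmem 0 (by omega))
      omega
    · intro i hi
      have h6 := h5 (a i) (hmem i (by omega))
      rw [← him, F_val hmono i (by omega), card_im hmono] at h6
      exact (F_image hmono (i + b) hi _).mp (by have := h6 (by omega); omega)
    · rintro ⟨i, j, hij, hj, he⟩
      apply h4 (a i) (hmem i (by omega))
      have : a i + k = a j := by omega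
      rw [this]
      exact hmem j (by omega)

/-- the insertion of a block of length `2 k` at `x` -/
noncomputable def ins (A : Finset ℤ) (k : ℕ) (x : ℤ) : Finset ℤ :=
  (A.filter (fun z : ℤ => z ≤ x)) ∪
    ((Finset.Ioc x (x + (k : ℤ))).filter (fun z : ℤ => z - (k : ℤ) ∉ A)) ∪
    ((A.filter (fun z : ℤ => x - (k : ℤ) < z)).image (fun z : ℤ => z + 2 * (k : ℤ)))

lemma mem_ins (A : Finset ℤ) (k : ℕ) (x z : ℤ) : z ∈ ins A k x ↔
    (z ≤ x ∧ z ∈ A) ∨ (x < z ∧ z ≤ x + k ∧ z - k ∉ A) ∨ (x + k < z ∧ z - 2 * k ∈ A) := by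
  unfold ins
  rw [mem_union, mem_union, mem_filter, mem_filter, mem_image, Finset.mem_Ioc]
  constructor
  · rintro ((⟨h1, h2⟩ | ⟨h1, h2⟩) | ⟨y, hy, rfl⟩)
    · exact Or.inl ⟨h2, h1⟩
    · exact Or.inr (Or.inl ⟨h1.1, h1.2, h2⟩)
    · rw [mem_filter] at hy
      refine Or.inr (Or.inr ⟨by omega, ?_⟩)
      rw [show y + 2 * (k : ℤ) - 2 * k = y by ring]; exact hy.1
  · rintro (⟨h1, h2⟩ | ⟨h1, h2, h3⟩ | ⟨h1, h2⟩)
    · exact Or.inl (Or.inl ⟨h2, h1⟩)
    · exact Or.inl (Or.inr ⟨⟨h1, h2⟩, h3⟩)
    · refine Or.inr ⟨z - 2 * k, ?_, by ring⟩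
      rw [mem_filter]
      exact ⟨h2, by omega⟩

lemma F_ins_low (A : Finset ℤ) (k : ℕ) (x t : ℤ) (ht : t ≤ x) : F (ins A k x) t = F A t := by
  unfold F
  congr 1
  ext z
  rw [mem_filter, mem_filter, mem_ins]
  constructor
  · rintro ⟨h1 | h1 | h1, h2⟩
    · exact ⟨h1.2, h2⟩
    · omega
    · omega
  · rintro ⟨h1, h2⟩
    exact ⟨Or.inl ⟨by omega, h1⟩, h2⟩

lemma F_ins_high (A : Finset ℤ) (k : ℕ) (x t : ℤ) (ht : x + k ≤ t) :
    F (ins A k x) t = F A (t - 2 * k) + k := by
  have e1 : F (ins A k x) t = F A x + ((Finset.Ioc x (x + (k : ℤ))).filter (fun z : ℤ => z - (k : ℤ) ∉ A)).card +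
      (A.filter (fun z : ℤ => x - (k : ℤ) < z ∧ z ≤ t - 2 * (k : ℤ))).card := by
    unfold F
    have : (ins A k x).filter (fun z => z ≤ t) =
        (A.filter (fun z : ℤ => z ≤ x)) ∪ ((Finset.Ioc x (x + (k : ℤ))).filter (fun z : ℤ => z - (k : ℤ) ∉ A)) ∪
        ((A.filter (fun z : ℤ => x - (k : ℤ) < z ∧ z ≤ t - 2 * (k : ℤ))).image (fun z : ℤ => z + 2 * (k : ℤ))) := by
      ext z
      rw [mem_filter, mem_ins, mem_union, mem_union, mem_filter, mem_filter, mem_image,
        Finset.mem_Ioc]
      constructor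
      · rintro ⟨h1 | h1 | h1, h2⟩
        · exact Or.inl (Or.inl ⟨h1.2, h1.1⟩)
        · exact Or.inl (Or.inr ⟨⟨h1.1, h1.2.1⟩, h1.2.2⟩)
        · refine Or.inr ⟨z - 2 * k, ?_, by ring⟩
          rw [mem_filter]
          exact ⟨h1.2, by omega, by omega⟩
      · rintro ((⟨h1, h2⟩ | ⟨h1, h2⟩) | ⟨y, hy, rfl⟩)
        · exact ⟨Or.inl ⟨h2, h1⟩, by omega⟩
        · exact ⟨Or.inr (Or.inl ⟨h1.1, h1.2, h2⟩), by omega⟩
        · rw [mem_filter] at hy
          refine ⟨Or.inr (Or.inr ⟨by omega, ?_⟩), by omega⟩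
          rw [show y + 2 * (k : ℤ) - 2 * k = y by ring]; exact hy.1
    have hd1 : Disjoint (A.filter (fun z : ℤ => z ≤ x))
        ((Finset.Ioc x (x + (k : ℤ))).filter (fun z : ℤ => z - (k : ℤ) ∉ A)) := by
      rw [Finset.disjoint_left]
      intro z hz hz'
      rw [mem_filter] at hz hz'
      rw [Finset.mem_Ioc] at hz'
      omega
    have hd2 : Disjoint ((A.filter (fun z : ℤ => z ≤ x)) ∪
        ((Finset.Ioc x (x + (k : ℤ))).filter (fun z : ℤ => z - (k : ℤ) ∉ A)))
        ((A.filter (fun z : ℤ => x - (k : ℤ) < z ∧ z ≤ t - 2 * (k : ℤ))).image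
          (fun z : ℤ => z + 2 * (k : ℤ))) := by
      rw [Finset.disjoint_left]
      intro z hz hz'
      rw [mem_union, mem_filter, mem_filter, Finset.mem_Ioc] at hz
      rw [mem_image] at hz'
      obtain ⟨y, hy, rfl⟩ := hz'
      rw [mem_filter] at hy
      rcases hz with hz | hz
      · omega
      · omega
    have hinj : Function.Injective (fun z : ℤ => z + 2 * (k : ℤ)) := by
      intro p q hpq
      simp only at hpq
      omega
    rw [this, card_union_of_disjoint hd2, card_union_of_disjoint hd1,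
      card_image_of_injective _ hinj]
  have e2 : ((Finset.Ioc x (x + (k : ℤ))).filter (fun z : ℤ => z - (k : ℤ) ∉ A)).card +
      (A.filter (fun z : ℤ => x - (k : ℤ) < z ∧ z ≤ x)).card = k := by
    have h1 : (A.filter (fun z : ℤ => x - (k : ℤ) < z ∧ z ≤ x)).card =
        ((Finset.Ioc x (x + (k : ℤ))).filter (fun z : ℤ => z - (k : ℤ) ∈ A)).card := by
      refine Finset.card_bij' (fun z _ => z + (k : ℤ)) (fun z _ => z - (k : ℤ)) ?_ ?_ ?_ ?_
      · intro z hz
        rw [mem_filter] at hz
        rw [mem_filter, Finset.mem_Ioc]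
        refine ⟨⟨by omega, by omega⟩, ?_⟩
        rw [show z + (k : ℤ) - k = z by ring]; exact hz.1
      · intro z hz
        rw [mem_filter, Finset.mem_Ioc] at hz
        rw [mem_filter]
        exact ⟨hz.2, by omega, by omega⟩
      · intro z _; ring
      · intro z _; ring
    rw [h1, add_comm, Finset.card_filter_add_card_filter_not]
    rw [Int.card_Ioc]
    omega
  have e3 : ∀ s, x - k ≤ s → F A s = F A (x - k) + (A.filter (fun z : ℤ => x - (k : ℤ) < z ∧ z ≤ s)).card := by
    intro s hs
    unfold F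
    rw [← card_union_of_disjoint]
    · congr 1
      ext z
      rw [mem_union, mem_filter, mem_filter, mem_filter]
      constructor
      · rintro ⟨h1, h2⟩
        rcases lt_or_ge (x - k) z with h3 | h3
        · exact Or.inr ⟨h1, h3, h2⟩
        · exact Or.inl ⟨h1, h3⟩
      · rintro (⟨h1, h2⟩ | ⟨h1, h2, h3⟩)
        · exact ⟨h1, by omega⟩
        · exact ⟨h1, h3⟩
    · rw [Finset.disjoint_left]
      intro z hz hz'
      rw [mem_filter] at hz hz'
      omega
  have e4 := e3 x (by omega)
  have e5 := e3 (t - 2 * k) (by omega)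
  omega

/-- lengthening -/
lemma lengthen {b c k n : ℕ} (hk0 : 0 < k) (A : Finset ℤ) (h : SBad b c k n A)
    (x : ℤ) (hx0 : 0 ≤ x) (hx1 : A.card ≤ b + F A x) (hx2 : x ≤ c + k) :
    SBad (b + k) (c + 2 * k) k (n + k) (ins A k x) := by
  obtain ⟨h1, h2, h3, h4, h5⟩ := h
  -- a bound for all elements
  obtain ⟨T, hT1, hT2⟩ : ∃ T : ℤ, x + k ≤ T ∧ ∀ z ∈ A, z + 2 * k ≤ T := by
    obtain ⟨M, hM⟩ := A.exists_le
    refine ⟨max (x + k) (M + 2 * k), le_max_left _ _, fun z hz => ?_⟩
    have := hM z hz
    have h6 := le_max_right (x + (k : ℤ)) (M + 2 * k)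
    omega
  have hcard : (ins A k x).card = A.card + k := by
    have e1 : F (ins A k x) T = (ins A k x).card := by
      unfold F
      congr 1
      rw [Finset.filter_eq_self]
      intro z hz
      rw [mem_ins] at hz
      rcases hz with hz | hz | hz
      · omega
      · omega
      · have := hT2 _ hz.2; omega
    have e2 : F A (T - 2 * k) = A.card := by
      unfold F
      congr 1
      rw [Finset.filter_eq_self]
      intro z hz
      have := hT2 z hz; omega
    rw [← e1, F_ins_high A k x T hT1, e2]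
  refine ⟨by omega, ?_, ?_, ?_, ?_⟩
  · rw [mem_ins]; exact Or.inl ⟨hx0, h2⟩
  · intro z hz
    rw [mem_ins] at hz
    rcases hz with hz | hz | hz
    · exact h3 z hz.2
    · omega
    · omega
  · intro z hz hz'
    rw [mem_ins] at hz hz'
    rcases hz with ⟨a1, a2⟩ | ⟨a1, a2, a3⟩ | ⟨a1, a2⟩
    · rcases hz' with ⟨b1, b2⟩ | ⟨b1, b2, b3⟩ | ⟨b1, b2⟩
      · exact h4 z a2 b2
      · apply b3
        rw [show z + (k : ℤ) - k = z by ring]; exact a2
      · omega
    · rcases hz' with ⟨b1, b2⟩ | ⟨b1, b2, b3⟩ | ⟨b1, b2⟩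
      · omega
      · omega
      · apply a3
        rw [show z + (k : ℤ) - 2 * k = z - k by ring] at b2; exact b2
    · rcases hz' with ⟨b1, b2⟩ | ⟨b1, b2, b3⟩ | ⟨b1, b2⟩
      · omega
      · omega
      · apply h4 _ a2
        rw [show z - 2 * (k : ℤ) + k = z + k - 2 * k by ring]; exact b2
  · intro v hv hle
    rw [hcard] at hle
    rcases lt_or_ge x v with hvx | hvx
    · exfalso
      have e1 : F (ins A k x) x + 1 ≤ F (ins A k x) v := by
        unfold F
        rw [Nat.succ_le_iff]
        apply card_lt_card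
        rw [Finset.ssubset_iff_of_subset]
        · refine ⟨v, ?_, ?_⟩
          · rw [mem_filter]; exact ⟨hv, le_rfl⟩
          · rw [mem_filter]; rintro ⟨_, h6⟩; omega
        · intro z hz
          rw [mem_filter] at hz ⊢
          exact ⟨hz.1, by omega⟩
      rw [F_ins_low A k x x le_rfl] at e1
      omega
    · have hvA : v ∈ A := by
        rw [mem_ins] at hv
        rcases hv with hv | hv | hv
        · exact hv.2
        · omega
        · omega
      have hv0 := h3 v hvA
      rw [F_ins_low A k x v hvx] at hle ⊢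
      rw [F_ins_high A k x _ (by push_cast; omega)]
      have e1 := h5 v hvA (by omega)
      have e2 : v + ((c + 2 * k : ℕ) : ℤ) - 2 * k = v + c := by push_cast; ring
      rw [e2]
      omega

/-- the explicit sequence for large `k` -/
lemma explicit {b c k : ℕ} (hb : 0 < b) (hbc : b ≤ c) (hk0 : 0 < k) :
    Bad (b + k) (c + 2 * k) k (2 * k - 1) := by
  refine ⟨fun i => if i < k then (i : ℤ) else i + k, ⟨by simp [hk0], ?_, ?_⟩, ?_⟩
  · intro i hi
    show (if i < k then (i : ℤ) else i + k) < (if i + 1 < k then ((i + 1 : ℕ) : ℤ) else ((i + 1 : ℕ) : ℤ) + k)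
    split_ifs <;> push_cast <;> omega
  · intro i hi
    show (if i + (b + k) < k then ((i + (b + k) : ℕ) : ℤ) else ((i + (b + k) : ℕ) : ℤ) + k) ≤
      (if i < k then (i : ℤ) else i + k) + ((c + 2 * k : ℕ) : ℤ)
    split_ifs <;> push_cast <;> omega
  · rintro ⟨i, j, hij, hj, he⟩
    have he' : (if j < k then (j : ℤ) else j + k) - (if i < k then (i : ℤ) else i + k) = k := he
    split_ifs at he' <;> omega

/-- the main step -/
lemma main_step {b c k n : ℕ} (hb : 0 < b) (hk0 : 0 < k) (hbc : b ≤ c) (hc : c < 2 * b)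
    (h : Bad b c k n) : Bad (b + k) (c + 2 * k) k (n + k) := by
  have hn : n < b + k - 1 := by
    by_contra hcon
    exact not_bad hb hk0 hc (h.mono (not_lt.mp hcon))
  by_cases hlarge : b ≤ k ∧ 2 * (c - b) ≤ k
  · have hnk : n < k := by
      by_contra hcon
      exact large hb hbc hc hlarge.1 hlarge.2 (h.mono (not_lt.mp hcon))
    exact (explicit hb hbc hk0).mono (by omega)
  · obtain ⟨a, ⟨h1, h2, h3⟩, h4⟩ := h
    have hA : SBad b c k n ((range (n + 1)).image a) := by
      refine ⟨card_im h2, ?_, ?_, ?_, ?_⟩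
      · rw [mem_image]; exact ⟨0, by simp, h1⟩
      · intro x hx
        rw [mem_image] at hx
        obtain ⟨i, hi, rfl⟩ := hx
        rw [mem_range] at hi
        have := gap h2 0 i (by omega) (by omega)
        rw [h1] at this
        push_cast at this
        omega
      · intro x hx hx'
        rw [mem_image] at hx hx'
        obtain ⟨i, hi, rfl⟩ := hx
        obtain ⟨j, hj, he⟩ := hx'
        rw [mem_range] at hi hj
        apply h4
        refine ⟨i, j, ?_, by omega, by omega⟩
        by_contra hcon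
        have := gap h2 j i (by omega) (by omega)
        omega
      · intro x hx
        rw [mem_image] at hx
        obtain ⟨i, hi, rfl⟩ := hx
        rw [mem_range] at hi
        rw [F_val h2 i (by omega), card_im h2]
        intro hb
        have := (F_image h2 (i + b) (by omega) (a i + c)).mpr (h3 i (by omega))
        omega
    rw [Bad_iff _ _ _ _ hk0]
    refine ⟨_, lengthen hk0 _ hA (a (n - b)) ?_ ?_ ?_⟩
    · have := gap h2 0 (n - b) (by omega) (by omega)
      rw [h1] at this
      push_cast at this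
      omega
    · rw [F_val h2 (n - b) (by omega), card_im h2]
      omega
    · rcases Nat.lt_or_ge n b with hnb | hnb
      · rw [show n - b = 0 by omega, h1]; positivity
      have hb0 := h3 0 (by omega)
      rw [h1, zero_add] at hb0
      rcases Nat.lt_or_ge b (n - b) with h6 | h6
      · have h7 := h3 b (by omega)
        have h8 := gap h2 (n - b) (b + b) (by omega) (by omega)
        push_cast [Nat.cast_sub hnb] at h8
        omega
      · have h7 := gap h2 (n - b) b h6 (by omega)
        push_cast [Nat.cast_sub hnb] at h7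
        omega

/-- computing `N` -/
lemma N_eq (b c k m : ℕ) (hm : 0 < m) (h1 : ¬ Bad b c k m) (h2 : Bad b c k (m - 1)) :
    N b c k = m := by
  unfold N
  apply le_antisymm
  · apply sInf_le
    refine ⟨m, ⟨hm, ?_⟩, rfl⟩
    intro a ha
    by_contra hcon
    exact h1 ⟨a, ha, hcon⟩
  · apply le_sInf
    rintro _ ⟨n, ⟨hn, hn'⟩, rfl⟩
    show (m : ℕ∞) ≤ (n : ℕ∞)
    rw [Nat.cast_le]
    by_contra hcon
    obtain ⟨a, ha, ha'⟩ := h2.mono (show n ≤ m - 1 by omega)
    exact ha' (hn' a ha)

/-- **The shift identity.** -/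
theorem result (b c k : ℕ) (hb : 0 < b) (hk : 0 < k) (hbc : b ≤ c) (hc : c < 2 * b) :
    N (b + k) (c + 2 * k) k = N b c k + k ∧ N b c k ≠ ⊤ := by
  classical
  have hex : ∃ n, ¬ Bad b c k n := ⟨_, not_bad hb hk hc⟩
  set m := Nat.find hex with hm
  have m1 : ¬ Bad b c k m := Nat.find_spec hex
  have m0 : 0 < m := by
    rcases Nat.eq_zero_or_pos m with h | h
    · rw [h] at m1; exact absurd (Bad_zero hb) m1
    · exact h
  have m2 : Bad b c k (m - 1) := by
    by_contra hcon
    have : m ≤ m - 1 := Nat.find_min' hex hcon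
    omega
  have e1 := N_eq b c k m m0 m1 m2
  have e2 := N_eq (b + k) (c + 2 * k) k (m + k) (by omega) (fun h => m1 (shorten hk h)) (by
    have := main_step hb hk hbc hc m2
    rw [show m + k - 1 = m - 1 + k by omega]
    exact this)
  refine ⟨?_, ?_⟩
  · rw [e1, e2]; push_cast; rfl
  · rw [e1]; exact ENat.natCast_ne_top m

end Pool.Agent.Results.MP_2aafb6_co.Shift
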